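import Pool.Agent.W424.KI.Stm

/-!
# The cocycle lemma and the non-adjacency lemma in the box (helper349, after helper658)
-/

set_option autoImplicit false

namespace Pool.Agent.W349.KI
open H974 H906.Cyl
open Pool.Agent.H160R2.ML (nm)
open Pool.Agent.W801.OU (RZ LZ Dg nrm zp Cor scz bxz SE3 uR)
open Pool.Agent.W424.KI

namespace TCOC

theorem edz_s (s d : ℤ) : (edz s d).1 + (edz s d).2.1 = s := by
  unfold edz
  split_ifs with h
  · simp only; omega
  · simp only; omega

theorem edz_d (s d : ℤ) : dco (edz s d) = d := by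
  unfold edz dco
  split_ifs with h h1 h1
  · simp only; omega
  · simp at h1
  · simp at h1
  · simp only; omega

/-- the edge is determined by the square -/
theorem edz_eq (e : Edg) : edz (e.1 + e.2.1) (dco e) = e := by
  obtain ⟨x, y, b⟩ := e
  cases b
  · unfold edz dco
    simp only [Bool.false_eq_true, if_false]
    rw [if_neg (by omega)]
    simp only [Prod.mk.injEq, and_true]
    omega
  · unfold edz dco
    simp only [if_true]
    rw [if_pos (by omega)]
    simp only [Prod.mk.injEq, and_true]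
    omega

/-- the squares of the box -/
theorem edz_box (R s d : ℤ) : edz s d ∈ bxz R ↔ max s (-s - 1) + max d (-d - 1) ≤ 2 * R - 1 := by
  unfold bxz edz
  simp only [Set.mem_ofPred_eq]
  split_ifs with h
  · unfold nm src tgt
    simp only [if_true]
    constructor
    · rintro ⟨h1, h2⟩
      have a1 := abs_le.1 ((le_max_left _ _).trans h1)
      have a2 := abs_le.1 ((le_max_right _ _).trans h1)
      have a3 := abs_le.1 ((le_max_left _ _).trans h2)
      have a4 := abs_le.1 ((le_max_right _ _).trans h2)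
      omega
    · intro h1
      refine ⟨max_le (abs_le.2 ⟨?_, ?_⟩) (abs_le.2 ⟨?_, ?_⟩),
        max_le (abs_le.2 ⟨?_, ?_⟩) (abs_le.2 ⟨?_, ?_⟩)⟩ <;> omega
  · unfold nm src tgt
    simp only [Bool.false_eq_true, if_false]
    constructor
    · rintro ⟨h1, h2⟩
      have a1 := abs_le.1 ((le_max_left _ _).trans h1)
      have a2 := abs_le.1 ((le_max_right _ _).trans h1)
      have a3 := abs_le.1 ((le_max_left _ _).trans h2)
      have a4 := abs_le.1 ((le_max_right _ _).trans h2)
      omega
    · intro h1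
      refine ⟨max_le (abs_le.2 ⟨?_, ?_⟩) (abs_le.2 ⟨?_, ?_⟩),
        max_le (abs_le.2 ⟨?_, ?_⟩) (abs_le.2 ⟨?_, ?_⟩)⟩ <;> omega

/-- one diagonal of each square is a link -/
theorem diag {R : ℤ} {G : Set Edg} {e : Edg} (hb : e ∈ bxz R) (he : e ∉ zp {0}) :
    RZ {0} (bxz R) G (nrm {0} (dco e) (e.1 + e.2.1) (dco e))
      (nrm {0} (dco e) (e.1 + e.2.1 + 1) (dco e + 1)) ∨
    RZ {0} (bxz R) G (nrm {0} (dco e) (e.1 + e.2.1) (dco e + 1))
      (nrm {0} (dco e) (e.1 + e.2.1 + 1) (dco e)) := by
  by_cases hG : e ∈ G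
  · rcases Int.emod_two_eq_zero_or_one (e.1 + e.2.1 + dco e) with h | h
    · exact Or.inl (Relation.EqvGen.rel _ _ ⟨e, hb, he, Or.inl ⟨hG, Dg.rise h⟩⟩)
    · exact Or.inr (Relation.EqvGen.rel _ _ ⟨e, hb, he, Or.inl ⟨hG, Dg.fall (by omega)⟩⟩)
  · rcases Int.emod_two_eq_zero_or_one (e.1 + e.2.1 + dco e) with h | h
    · exact Or.inr (Relation.EqvGen.rel _ _ ⟨e, hb, he, Or.inr ⟨hG, Dg.fall (by omega)⟩⟩)
    · exact Or.inl (Relation.EqvGen.rel _ _ ⟨e, hb, he, Or.inr ⟨hG, Dg.rise h⟩⟩)

/-- partial sums in both directions -/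
noncomputable def ps (f : ℤ → ZMod 2) (j : ℤ) : ZMod 2 :=
  ∑ i ∈ Finset.Ico 0 j, f i + ∑ i ∈ Finset.Ico j 0, f i

theorem ps_succ (f : ℤ → ZMod 2) (j : ℤ) : ps f (j + 1) = ps f j + f j := by
  unfold ps
  rcases le_or_gt 0 j with h | h
  · rw [sum_Ico_int_succ h, Finset.Ico_eq_empty (a := j + 1) (by omega),
      Finset.Ico_eq_empty (a := j) (by omega)]
    simp
  · rw [Finset.Ico_eq_empty (a := (0:ℤ)) (b := j + 1) (by omega),
      Finset.Ico_eq_empty (a := (0:ℤ)) (b := j) (by omega)]
    have h1 : Finset.Ico j 0 = insert j (Finset.Ico (j + 1) 0) := by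
      ext x
      simp only [Finset.mem_Ico, Finset.mem_insert]
      omega
    rw [h1, Finset.sum_insert (by simp)]
    simp only [Finset.sum_empty, zero_add]
    have := zmod2_add_self (f j)
    linear_combination -this

section
variable {R : ℤ} {G : Set Edg} {Rel : ℤ × ℤ → ℤ × ℤ → Prop}

noncomputable def lam (Rel : ℤ × ℤ → ℤ × ℤ → Prop) (x y : ℤ × ℤ) : ZMod 2 := b2 (Rel x y)

noncomputable def pot (Rel : ℤ × ℤ → ℤ × ℤ → Prop) (x : ℤ × ℤ) : ZMod 2 :=
  ps (fun i => lam Rel (i, 0) (i + 1, 0)) x.1 + ps (fun i => lam Rel (x.1, i) (x.1, i + 1)) x.2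

theorem ps_zero (f : ℤ → ZMod 2) : ps f 0 = 0 := by
  unfold ps
  simp

theorem pot_v (j t : ℤ) : pot Rel (j, t + 1) = pot Rel (j, t) + lam Rel (j, t) (j, t + 1) := by
  unfold pot
  simp only
  rw [ps_succ]
  ring

theorem pot_h0 (j : ℤ) : pot Rel (j + 1, 0) = pot Rel (j, 0) + lam Rel (j, 0) (j + 1, 0) := by
  unfold pot
  simp only
  rw [ps_succ, ps_zero, ps_zero]
  ring

theorem lam_symm (hs : ∀ x y, Rel x y → Rel y x) (x y : ℤ × ℤ) : lam Rel x y = lam Rel y x :=
  b2_congr ⟨hs x y, hs y x⟩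

theorem lam_inv (hi : ∀ x x' y, RZ {0} (bxz R) G x x' → Rel x y → Rel x' y) {x x' : ℤ × ℤ}
    (h : RZ {0} (bxz R) G x x') (y : ℤ × ℤ) : lam Rel x y = lam Rel x' y :=
  b2_congr ⟨hi x x' y h, hi x' x y (Relation.EqvGen.symm _ _ h)⟩

/-- the sum over the four sides of a square -/
theorem square (hs : ∀ x y, Rel x y → Rel y x)
    (hi : ∀ x x' y, RZ {0} (bxz R) G x x' → Rel x y → Rel x' y)
    {A B C' E : ℤ × ℤ} (h : RZ {0} (bxz R) G A E ∨ RZ {0} (bxz R) G C' B) :
    lam Rel A B + lam Rel B E + lam Rel C' E + lam Rel A C' = 0 := by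
  rcases h with h | h
  · rw [lam_symm hs B E, ← lam_inv hi h B, lam_symm hs C' E, ← lam_inv hi h C']
    have h1 := zmod2_add_self (lam Rel A B)
    have h2 := zmod2_add_self (lam Rel A C')
    linear_combination h1 + h2
  · rw [lam_symm hs A C', lam_inv hi h A, lam_inv hi h E, lam_symm hs B A]
    have h1 := zmod2_add_self (lam Rel A B)
    have h2 := zmod2_add_self (lam Rel B E)
    linear_combination h1 + h2

/-- rows `t ≥ 0` -/
theorem pot_up (hs : ∀ x y, Rel x y → Rel y x)
    (hi : ∀ x x' y, RZ {0} (bxz R) G x x' → Rel x y → Rel x' y) (d : ℕ) :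
    ∀ s : ℤ, max s (-s - 1) + ((d : ℤ) - 1) ≤ 2 * R - 1 →
      pot Rel (s, (d : ℤ)) + pot Rel (s + 1, (d : ℤ)) = lam Rel (s, (d : ℤ)) (s + 1, (d : ℤ)) := by
  induction d with
  | zero =>
    intro s _
    simp only [Nat.cast_zero]
    rw [pot_h0]
    have := zmod2_add_self (pot Rel (s, 0))
    linear_combination this
  | succ d ih =>
    intro s hb
    have h0 : edz s d ∉ zp {0} := by
      rintro ⟨h, _⟩
      rw [edz_d] at h
      omega
    have hbx : edz s d ∈ bxz R := by
      rw [edz_box]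
      push_cast at hb
      omega
    have h1 := diag (G := G) hbx h0
    rw [edz_s, edz_d] at h1
    have hn : ∀ j t : ℤ, nrm {0} (d : ℤ) j t = (j, t) := by
      intro j t
      unfold nrm
      rw [if_neg (by omega)]
    simp only [hn] at h1
    have h2 := square hs hi h1
    push_cast
    rw [pot_v, pot_v]
    have h3 := ih s (by push_cast at hb; omega)
    have h4 := zmod2_add_self (lam Rel (s, (d : ℤ)) (s + 1, (d : ℤ)))
    have h5 := zmod2_add_self (lam Rel (s, (d : ℤ) + 1) (s + 1, (d : ℤ) + 1))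
    linear_combination h3 + h2 - h5

open Classical in
/-- the left neighbour, seen from the right -/
noncomputable def lf (s t : ℤ) : ℤ × ℤ := if s = 0 then (s - 1, t) else (s, t)

theorem nrm_neg {d : ℤ} (hd : d < 0) (s t : ℤ) : nrm {0} d s t = lf s t := by
  unfold nrm lf
  by_cases h : s = 0
  · rw [if_pos ⟨hd, h⟩, if_pos h]
  · rw [if_neg (fun h' => h h'.2), if_neg h]

theorem nrm_neg' {d : ℤ} {s : ℤ} (hs : s ≠ 0) (t : ℤ) : nrm {0} d s t = (s, t) := by
  unfold nrm
  rw [if_neg (fun h' => hs h'.2)]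

theorem pot_lf (s t : ℤ) : pot Rel (lf s (t + 1)) = pot Rel (lf s t) +
    lam Rel (lf s t) (lf s (t + 1)) := by
  unfold lf
  split_ifs <;> exact pot_v _ _

/-- rows `t ≤ 0` -/
theorem pot_dn (hs : ∀ x y, Rel x y → Rel y x)
    (hi : ∀ x x' y, RZ {0} (bxz R) G x x' → Rel x y → Rel x' y)
    (ht : ∀ (c d : ℕ), c < 3 → d < 3 → c ≠ d → ¬ Rel (scz 0 0 c) (scz 0 0 d)) (d : ℕ) :
    ∀ s : ℤ, s + 1 ≠ 0 → max s (-s - 1) + ((d : ℤ) - 1) ≤ 2 * R - 1 →
      pot Rel (lf s (-(d : ℤ))) + pot Rel (s + 1, -(d : ℤ)) =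
      lam Rel (lf s (-(d : ℤ))) (s + 1, -(d : ℤ)) := by
  induction d with
  | zero =>
    intro s hs1 _
    simp only [Nat.cast_zero, neg_zero]
    unfold lf
    split_ifs with h
    · subst h
      have e0 : scz 0 0 0 = (0 - 1, 0) := by
        unfold scz
        simp
      have e1 : scz 0 0 1 = (0, 0) := by
        unfold scz
        simp
      have e2 : scz 0 0 2 = (0 + 1, 0) := by
        unfold scz
        simp
      have h01 : lam Rel (0 - 1, 0) (0, 0) = 0 := by
        rw [← e0, ← e1]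
        exact b2_not_of (ht 0 1 (by norm_num) (by norm_num) (by norm_num))
      have h12 : lam Rel (0, 0) (0 + 1, 0) = 0 := by
        rw [← e1, ← e2]
        exact b2_not_of (ht 1 2 (by norm_num) (by norm_num) (by norm_num))
      have h02 : lam Rel (0 - 1, 0) (0 + 1, 0) = 0 := by
        rw [← e0, ← e2]
        exact b2_not_of (ht 0 2 (by norm_num) (by norm_num) (by norm_num))
      have k1 := pot_h0 (Rel := Rel) (0 - 1)
      rw [sub_add_cancel] at k1
      rw [pot_h0, k1, h01, h12, h02]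
      have := zmod2_add_self (pot Rel (0 - 1, 0))
      linear_combination this
    · rw [pot_h0]
      have := zmod2_add_self (pot Rel (s, 0))
      linear_combination this
  | succ d ih =>
    intro s hs1 hb
    push_cast at hb ⊢
    set t : ℤ := -((d : ℤ) + 1) with htd
    have e1 : -(d : ℤ) = t + 1 := by rw [htd]; ring
    rw [e1] at ih
    have h0 : edz s t ∉ zp {0} := by
      rintro ⟨_, h⟩
      rw [edz_s] at h
      exact hs1 h
    have hbx : edz s t ∈ bxz R := by
      rw [edz_box]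
      omega
    have h1 := diag (G := G) hbx h0
    rw [edz_s, edz_d] at h1
    have hneg : t < 0 := by omega
    rw [nrm_neg hneg s, nrm_neg hneg s, nrm_neg' hs1, nrm_neg' hs1] at h1
    have h2 := square hs hi h1
    have h3 := ih s hs1 (by omega)
    rw [pot_lf, pot_v] at h3
    have h4 := zmod2_add_self (lam Rel (lf s (t + 1)) (s + 1, t + 1))
    have h5 := zmod2_add_self (lam Rel (lf s t) (s + 1, t))
    have h6 := zmod2_add_self (lam Rel (lf s t) (lf s (t + 1)))
    have h7 := zmod2_add_self (lam Rel (s + 1, t) (s + 1, t + 1))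
    linear_combination h3 + h2 - h5 - h6 - h7

/-- the sides -/
theorem pot_side (hs : ∀ x y, Rel x y → Rel y x)
    (hi : ∀ x x' y, RZ {0} (bxz R) G x x' → Rel x y → Rel x' y)
    (ht : ∀ (c d : ℕ), c < 3 → d < 3 → c ≠ d → ¬ Rel (scz 0 0 c) (scz 0 0 d))
    {x y : ℤ × ℤ} (h : SdR R x y) : pot Rel x + pot Rel y = lam Rel x y := by
  have hor : ∀ (s d t : ℤ), ¬ (d < 0 ∧ s + 1 = 0) →
      max s (-s - 1) + max d (-d - 1) ≤ 2 * R - 1 → (t = d ∨ t = d + 1) →
      pot Rel (nrm {0} d s t) + pot Rel (nrm {0} d (s + 1) t) =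
        lam Rel (nrm {0} d s t) (nrm {0} d (s + 1) t) := by
    intro s d t hd hb htd
    rcases lt_or_ge d 0 with h | h
    · have h1 : s + 1 ≠ 0 := fun h' => hd ⟨h, h'⟩
      rw [nrm_neg h, nrm_neg' h1]
      have h2 := pot_dn hs hi ht (-t).toNat s h1 (by omega)
      have e1 : -(((-t).toNat : ℕ) : ℤ) = t := by omega
      rw [e1] at h2
      exact h2
    · have hn : ∀ j : ℤ, nrm {0} d j t = (j, t) := by
        intro j
        unfold nrm
        rw [if_neg (by omega)]
      rw [hn, hn]
      have h2 := pot_up hs hi t.toNat s (by omega)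
      have e1 : ((t.toNat : ℕ) : ℤ) = t := by omega
      rw [e1] at h2
      exact h2
  have ver : ∀ (s d : ℤ), pot Rel (nrm {0} d s d) + pot Rel (nrm {0} d s (d + 1)) =
        lam Rel (nrm {0} d s d) (nrm {0} d s (d + 1)) := by
    intro s d
    unfold nrm
    split_ifs with h
    · rw [pot_v]
      have := zmod2_add_self (pot Rel (s - 1, d))
      linear_combination this
    · rw [pot_v]
      have := zmod2_add_self (pot Rel (s, d))
      linear_combination this
  have bx : ∀ e : Edg, e ∈ bxz R →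
      max (e.1 + e.2.1) (-(e.1 + e.2.1) - 1) + max (dco e) (-(dco e) - 1) ≤ 2 * R - 1 := by
    intro e he
    rw [← edz_box, edz_eq]
    exact he
  cases h with
  | bot e hb he => exact hor _ _ _ he (bx e hb) (Or.inl rfl)
  | top e hb he => exact hor _ _ _ he (bx e hb) (Or.inr rfl)
  | lft e hb he => exact ver _ _
  | rgt e hb he => exact ver _ _

theorem zmod2_cases (x : ZMod 2) : x = 0 ∨ x = 1 := by
  revert x
  decide

end

end TCOC

open TCOC in
/-- **the cocycle lemma** -/
theorem t_COC : S_COC := by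
  intro R G Rel _ hs hi ht
  have key : ∀ x y, SdR R x y → pot Rel x + pot Rel y = lam Rel x y :=
    fun x y h => pot_side hs hi ht h
  have link : ∀ x y, RZ {0} (bxz R) G x y → pot Rel x = pot Rel y := by
    intro x y h
    induction h with
    | refl x => rfl
    | symm x y _ ih => exact ih.symm
    | trans x y z _ _ ih1 ih2 => exact ih1.trans ih2
    | rel x y h =>
      have hxy : RZ {0} (bxz R) G x y := Relation.EqvGen.rel _ _ h
      obtain ⟨e, hb, he, h1⟩ := h
      have hD : ∃ c : ℤ, Dg {0} c e x y := by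
        rcases h1 with h1 | h1
        · exact ⟨0, h1.2⟩
        · exact ⟨1, h1.2⟩
      obtain ⟨c, hD⟩ := hD
      cases hD with
      | rise _ =>
        have k1 := key _ _ (SdR.bot e hb he)
        have k2 := key _ _ (SdR.rgt e hb he)
        rw [lam_inv hi hxy, lam_symm hs] at k1
        have h3 := zmod2_add_self (pot Rel (nrm {0} (dco e) (e.1 + e.2.1 + 1) (dco e)))
        have h4 := zmod2_add_self (pot Rel (nrm {0} (dco e) (e.1 + e.2.1 + 1) (dco e + 1)))
        linear_combination k1 - k2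
      | fall _ =>
        have k1 := key _ _ (SdR.lft e hb he)
        have k2 := key _ _ (SdR.bot e hb he)
        rw [lam_symm hs, lam_inv hi hxy, lam_symm hs] at k1
        linear_combination k1 - k2
  refine ⟨fun x => pot Rel x = 0, ?_, ?_⟩
  · intro x y h
    show pot Rel x = 0 ↔ pot Rel y = 0
    rw [link x y h]
  · intro x y h
    have h1 := key x y h
    show Rel x y ↔ ¬ (pot Rel x = 0 ↔ pot Rel y = 0)
    by_cases hR : Rel x y
    · have h2 : lam Rel x y = 1 := b2_of hR
      rw [h2] at h1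
      refine ⟨fun _ => ?_, fun _ => hR⟩
      intro h3
      rcases zmod2_cases (pot Rel x) with h4 | h4
      · have h5 := h3.1 h4
        rw [h4, h5] at h1
        exact absurd h1 (by decide)
      · rcases zmod2_cases (pot Rel y) with h5 | h5
        · have h6 := h3.2 h5
          rw [h6] at h4
          exact absurd h4 (by decide)
        · rw [h4, h5] at h1
          exact absurd h1 (by decide)
    · have h2 : lam Rel x y = 0 := b2_not_of hR
      rw [h2] at h1
      refine ⟨fun h => absurd h hR, fun h => ?_⟩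
      exfalso
      apply h
      have h3 : pot Rel x = pot Rel y := by
        have := zmod2_add_self (pot Rel y)
        linear_combination h1 - this
      rw [h3]

/-- **adjacent points are in different clusters** -/
theorem t_NA : S_COC → S_NA := by
  intro hC R G hR hG x y hxy h
  obtain ⟨φ, h1, h2⟩ := hC R G (fun a b => RZ {0} (bxz R) G x a ∧ RZ {0} (bxz R) G x b) hR
    (fun a b h => ⟨h.2, h.1⟩)
    (fun a a' b h h' => ⟨Relation.EqvGen.trans _ _ _ h'.1 h, h'.2⟩)
    (by
      rintro c d hc hd hcd ⟨h3, h4⟩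
      exact hG.1 c d hc hd hcd
        (Relation.EqvGen.trans _ _ _ (Relation.EqvGen.symm _ _ h3) h4))
  exact (h2 x y hxy).1 ⟨Relation.EqvGen.refl _, h⟩ (h1 x y h)

end Pool.Agent.W349.KI
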