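import Pool.Agent.W424.KI.Stm
import Pool.Agent.W801.OS.Stm

/-!
# Consequences of the topology of the box (helper349)
-/

set_option autoImplicit false

namespace Pool.Agent.W349.KI
open H974 H906.Cyl
open Pool.Agent.W801.OU (RZ LZ Dg nrm zp Cor scz bxz SE3 uR)
open Pool.Agent.W424.KI

namespace TONB

theorem third (a b : ℕ) (ha : a < 3) (hb : b < 3) (hab : a ≠ b) :
    ∃ t : ℕ, t < 3 ∧ t ≠ a ∧ t ≠ b := by
  refine ⟨3 - a - b, ?_, ?_, ?_⟩ <;> omega

end TONB

open TONB in
/-- **consequences** -/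
theorem t_ONB : Pool.Agent.W801.OS.S_D1b → S_TRIB → S_ONB := by
  intro hD hT R G hR
  refine ⟨?_, ?_, ?_⟩
  · intro h
    refine ⟨?_, fun c hc => h c hc⟩
    intro c d hc hd hcd hcon
    obtain ⟨t, ht, htc, htd⟩ := third c d hc hd hcd
    exact (hT R G hR t c d ht hc hd htc htd hcd hcon).2 (h t ht)
  · intro c hc hx hn
    refine hD R G hR ?_
    intro a b ha hb hab hcon
    by_cases h1 : a = c
    · subst h1
      exact hn b hb (fun h => hab h.symm) hcon
    · by_cases h2 : b = c
      · subst h2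
        exact hn a ha hab (Relation.EqvGen.symm _ _ hcon)
      · exact (hT R G hR c a b hc ha hb (fun h => h1 h.symm) (fun h => h2 h.symm) hab hcon).2 hx
  · intro h
    exact hD R G hR h

end Pool.Agent.W349.KI
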